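import Mathlib
import Pool.Agent.Helper265.HgK
import Pool.Agent.Helper265.BrR
import Pool.Agent.Helper265.BrN
import Pool.Agent.Helper265.CrE
import Pool.Agent.Helper265.CrH
import Pool.Agent.Helper265.CrP
import Pool.Agent.Helper265.CrQ
import Pool.Agent.Helper265.JcF

set_option autoImplicit false
open Complex Set Filter Metric Topology MeasureTheory
open scoped ENNReal

namespace Pool.Agent.Results.MP_56bcbf_an.ThinPairsAllExponents

/-- `D` is a Jordan domain: a (nonempty) bounded connected open subset of the plane whose boundary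
is a Jordan curve, i.e. the range of a continuous injective map of the unit circle. -/
def IsJordanDomain (D : Set ℂ) : Prop :=
  IsOpen D ∧ IsConnected D ∧ Bornology.IsBounded D ∧
    ∃ γ : Circle → ℂ, Continuous γ ∧ Function.Injective γ ∧ range γ = frontier D

/-- The crescent `Ω = Int (D \ U)`. -/
def crescent (D U : Set ℂ) : Set ℂ := interior (D \ U)

/-- `φ` is a conformal map of `U` onto the open unit disc. -/
def IsConformalOntoDisc (φ : ℂ → ℂ) (U : Set ℂ) : Prop :=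
  DifferentiableOn ℂ φ U ∧ BijOn φ U (ball 0 1)

/-- The boundary value at `exp (θ * I)` (radial limit) of the inverse `φ⁻¹ : disc → U` of `φ`. -/
noncomputable def boundaryValue (U : Set ℂ) (φ : ℂ → ℂ) (θ : ℝ) : ℂ :=
  limUnder (𝓝[<] (1 : ℝ)) (fun r : ℝ => Function.invFunOn φ U ((r : ℂ) * exp (θ * I)))

/-- Harmonic measure on the boundary of `U` relative to `U` and to the base point which `φ` maps
to `0`: the image under the boundary values of `φ⁻¹` of normalised arc length on the circle. -/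
noncomputable def harmonicMeasure (U : Set ℂ) (φ : ℂ → ℂ) : Measure ℂ :=
  (ENNReal.ofReal (2 * Real.pi))⁻¹ •
    Measure.map (boundaryValue U φ) (volume.restrict (Ioo (-Real.pi) Real.pi))

/-- The pair `(D, U)` is thin: `∫ log δ dω = -∞`, where `δ z = dist (z, ℂ \ D)` and `ω` is
harmonic measure for `U`, with respect to some (equivalently, any) base point. As `log δ` is
bounded above, this says that the integral of the positive part of `-log δ` is infinite. -/
def Thin (D U : Set ℂ) : Prop :=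
  ∃ φ : ℂ → ℂ, IsConformalOntoDisc φ U ∧
    ∫⁻ z, (-(ENNReal.log (infEDist z Dᶜ))).toENNReal ∂(harmonicMeasure U φ) = ∞

/-- `H^p(Ω)`: the closure of the polynomials in `L^p(Ω, dx dy)`. -/
def Hp (Ω : Set ℂ) (p : ℝ≥0∞) [Fact (1 ≤ p)] : Set (Lp ℂ p (volume.restrict Ω)) :=
  closure {F | ∃ P : Polynomial ℂ, (F : ℂ → ℂ) =ᵐ[volume.restrict Ω] fun z => P.eval z}

/-- `L^p_a(Ω)`: the elements of `L^p(Ω, dx dy)` that are analytic in `Ω`. -/
def Lpa (Ω : Set ℂ) (p : ℝ≥0∞) : Set (Lp ℂ p (volume.restrict Ω)) :=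
  {F | ∃ f : ℂ → ℂ, DifferentiableOn ℂ f Ω ∧ (F : ℂ → ℂ) =ᵐ[volume.restrict Ω] f}

/-- The statement `(C_p)`: for every thin pair, `H^p(Ω) = L^p_a(Ω)`. -/
def Cp (p : ℝ≥0∞) (hp : 1 ≤ p) : Prop :=
  haveI : Fact (1 ≤ p) := ⟨hp⟩
  ∀ D U : Set ℂ, IsJordanDomain D → IsJordanDomain U → U ⊆ D → Thin D U →
    Hp (crescent D U) p = Lpa (crescent D U) p

/-- `p* = sup {q ≥ 1 : (C_p) holds for all 1 ≤ p < q}`, in `[1, +∞]`. -/
noncomputable def pStar : ℝ≥0∞ :=
  sSup {q : ℝ≥0∞ | 1 ≤ q ∧ ∀ (p : ℝ≥0∞) (hp : 1 ≤ p), p < q → Cp p hp}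

open Pool.Agent.Helper265

/-- a connected set with a point near `z'` and a point far from `z'` meets the circle -/
theorem circle_meets {V : Set ℂ} (hV : IsConnected V) {z' a : ℂ} (hz : z' ∈ closure V) {r : ℝ}
    (hr : 0 < r) (ha : a ∈ V) (har : r < ‖a - z'‖) : ∃ w ∈ V, ‖w - z'‖ = r := by
  have hcont : ContinuousOn (fun w : ℂ => ‖w - z'‖) V := by fun_prop
  obtain ⟨b, hbV, hb⟩ : ∃ b ∈ V, ‖b - z'‖ < r := by
    obtain ⟨b, hb, hd⟩ := Metric.mem_closure_iff.1 hz r hr
    exact ⟨b, hb, by rwa [dist_comm, dist_eq_norm] at hd⟩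
  obtain ⟨w, hw, hwr⟩ := hV.isPreconnected.intermediate_value hbV ha hcont ⟨hb.le, har.le⟩
  exact ⟨w, hw, hwr⟩

/-- the Cauchy integrand is integrable off the closure of the support -/
theorem int_off {Ω : Set ℂ} {k : ℂ → ℂ} (hk : Measurable k) (hki : Integrable k)
    (hkΩ : ∀ ζ, ζ ∉ Ω → k ζ = 0) {w : ℂ} (hw : w ∉ closure Ω) :
    Integrable (fun ζ => k ζ / (ζ - w)) := by
  obtain ⟨ε, hε, hb⟩ := Metric.isOpen_iff.mp isClosed_closure.isOpen_compl w hw
  refine Integrable.mono' (hki.norm.mul_const ε⁻¹) ?_ (Eventually.of_forall fun ζ => ?_)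
  · exact (hk.div (measurable_id.sub_const w)).aestronglyMeasurable
  · by_cases hζ : ζ ∈ Ω
    · have h1 : ε ≤ ‖ζ - w‖ := by
        by_contra hcon
        push Not at hcon
        have h2 : ζ ∈ ball w ε := by rwa [mem_ball, dist_eq_norm]
        exact hb h2 (subset_closure hζ)
      rw [norm_div, div_eq_mul_inv]
      gcongr
    · simp [hkΩ ζ hζ]

/-- the main density statement -/
theorem density {D U : Set ℂ} (hD : IsJordanDomain D) (hU : IsJordanDomain U) (hUD : U ⊆ D)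
    (hthin : Thin D U) {p : ℝ≥0∞} (hp1 : 1 ≤ p) (hp : p ≠ ∞) {f : ℂ → ℂ}
    (hf : DifferentiableOn ℂ f (crescent D U)) (hfp : MemLp f p (volume.restrict (crescent D U)))
    {δ : ℝ≥0∞} (hδ : δ ≠ 0) :
    ∃ P : Polynomial ℂ, eLpNorm (fun z => f z - P.eval z) p
      (volume.restrict (crescent D U)) < δ := by
  by_contra hcon
  push Not at hcon
  obtain ⟨hDo, hDc, hDb, γ, hγ, hγi, hγf⟩ := hD
  obtain ⟨hUo, hUc, hUb, -⟩ := hU
  obtain ⟨hE1, hE2, hE3⟩ := Br.jordan_facts hγ hγi hDo hDc hDb hγf.symm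
  obtain ⟨φ, ⟨hφd, hφb⟩, hdiv⟩ := hthin
  set Ω : Set ℂ := crescent D U with hΩ
  have hΩo : IsOpen Ω := isOpen_interior
  have hΩDU : Ω ⊆ D \ U := interior_subset
  have hΩD : Ω ⊆ D := fun z hz => (hΩDU hz).1
  obtain ⟨R, hR1, hR⟩ : ∃ R : ℝ, 1 ≤ R ∧ D ⊆ ball 0 R := by
    obtain ⟨R, hR⟩ := hDb.subset_ball 0
    exact ⟨max R 1, le_max_right _ _, hR.trans (ball_subset_ball (le_max_left _ _))⟩
  have hR0 : 0 < R := by linarith
  obtain ⟨q, s, k, hpq, hs1, hs2, hsq, hk, hkΩ, hkq, hks, hki, hkP, hkf⟩ :=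
    Br.annih_all hΩo.measurableSet (hΩD.trans hR) hp1 hp hfp hδ hcon
  have hkR : ∀ ζ, ζ ∉ ball (0 : ℂ) R → k ζ = 0 := fun ζ hζ => hkΩ ζ fun h => hζ (hR (hΩD h))
  -- the exterior of `D`
  set W0 : Set ℂ := (closure D)ᶜ with hW0def
  have hW0cl : ∀ w ∈ W0, w ∉ closure Ω := fun w hw h => hw (closure_mono hΩD h)
  have hW0 : ∀ w ∈ W0, Integrable (fun ζ => k ζ / (ζ - w)) ∧ ∫ ζ, k ζ / (ζ - w) = 0 := by
    intro w hw
    refine ⟨int_off hk hki hkΩ (hW0cl w hw), ?_⟩
    have hset : ∀ h : ℂ → ℂ, ∫ ζ in closure D, k ζ * h ζ = ∫ ζ, k ζ * h ζ := fun h =>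
      setIntegral_eq_integral_of_forall_compl_eq_zero fun ζ hζ => by
        rw [hkΩ ζ fun h' => hζ (subset_closure (hΩD h')), zero_mul]
    have h1 := Br.vanish (g := k) (K := closure D) (V := W0) hDb.isCompact_closure
      hki.integrableOn (fun P => by rw [hset]; exact hkP P) isClosed_closure.isOpen_compl hE1
      disjoint_compl_left hE2 w hw
    have h2 := hset fun ζ => (ζ - w)⁻¹
    simp only [← div_eq_mul_inv] at h2
    rw [← h2]
    exact h1
  -- circles about points off `D` meet the exterior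
  have hcircD : ∀ z', z' ∉ D → ∀ r : ℝ, 0 < r → ∃ w ∈ W0, ‖w - z'‖ = r := by
    intro z' hz' r hr
    obtain ⟨a, haV, ha⟩ : ∃ a ∈ W0, r < ‖a - z'‖ := by
      by_contra hcon
      push Not at hcon
      apply hE2
      refine (isBounded_closedBall (x := z') (r := r)).subset fun w hw => ?_
      rw [mem_closedBall, dist_eq_norm]
      exact hcon w hw
    exact circle_meets hE1 (hE3 hz') hr haV ha
  -- the inverse map
  set ψ : ℂ → ℂ := Function.invFunOn φ U with hψ
  have him : φ '' U = ball 0 1 := hφb.image_eq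
  have hψm : ∀ w ∈ ball (0 : ℂ) 1, ψ w ∈ U := fun w hw => hφb.surjOn.mapsTo_invFunOn hw
  have hψd : DifferentiableOn ℂ ψ (ball 0 1) := fun w hw =>
    (Br.differentiableAt_inv hUo hφd hφb.injOn (by rw [him]; exact hw)).differentiableWithinAt
  have hφψ : ∀ w ∈ ball (0 : ℂ) 1, φ (ψ w) = w := fun w hw =>
    Br.invFunOn_right (by rw [him]; exact hw)
  have hψi : InjOn ψ (ball 0 1) := by
    intro a ha b hb hab
    rw [← hφψ a ha, ← hφψ b hb, hab]
  have hψR : ∀ ξ ∈ ball (0 : ℂ) 1, ‖ψ ξ‖ < R := fun ξ hξ => by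
    simpa using hR (hUD (hψm ξ hξ))
  have hUcl : ∀ w ∈ U, w ∉ closure Ω := by
    intro w hw h
    obtain ⟨x, hxU, hxΩ⟩ := mem_closure_iff.1 h U hUo hw
    exact (hΩDU hxΩ).2 hxU
  -- boundary values
  have hβ : ∀ᵐ θ : ℝ ∂(volume.restrict (Ioo (-Real.pi) Real.pi)),
      Tendsto (fun r : ℝ => ψ ((r : ℂ) * exp (θ * I))) (𝓝[<] (1 : ℝ))
        (𝓝 (boundaryValue U φ θ)) := by
    filter_upwards [Br.rad_lim hψd hψi hψR] with θ hθ
    exact tendsto_nhds_limUnder hθ
  have hdiv' : ∫⁻ θ in Ioo (-Real.pi) Real.pi,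
      (-(ENNReal.log (infEDist (boundaryValue U φ θ) Dᶜ))).toENNReal = ∞ := by
    rw [harmonicMeasure, lintegral_smul_measure] at hdiv
    have h1 := lintegral_map_le (μ := volume.restrict (Ioo (-Real.pi) Real.pi))
      (fun z => (-(ENNReal.log (infEDist z Dᶜ))).toENNReal) (boundaryValue U φ)
    rw [← top_le_iff]
    refine le_trans ?_ h1
    by_contra hlt
    rw [top_le_iff] at hlt
    have hpi : (ENNReal.ofReal (2 * Real.pi))⁻¹ ≠ ∞ := by
      rw [Ne, ENNReal.inv_eq_top, ENNReal.ofReal_eq_zero, not_le]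
      positivity
    exact ENNReal.mul_ne_top hpi hlt hdiv
  -- the transform vanishes on `U`
  have hFd : DifferentiableOn ℂ (fun ξ => ∫ ζ, k ζ / (ζ - ψ ξ)) (ball 0 1) := by
    have h1 := Br.CT_diff (g := k) (A := Ω) hΩo.measurableSet hki.integrableOn
    have h2 : (fun ξ => ∫ ζ, k ζ / (ζ - ψ ξ)) =
        (fun z => ∫ ζ in Ω, k ζ / (ζ - z)) ∘ ψ := by
      funext ξ
      simp only [Function.comp_apply]
      rw [setIntegral_eq_integral_of_forall_compl_eq_zero fun ζ hζ => by rw [hkΩ ζ hζ, zero_div]]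
    rw [h2]
    exact h1.comp hψd fun ξ hξ => hUcl _ (hψm ξ hξ)
  have hFi : ∀ ξ ∈ ball (0 : ℂ) 1, Integrable (fun ζ => k ζ / (ζ - ψ ξ)) := fun ξ hξ =>
    int_off hk hki hkΩ (hUcl _ (hψm ξ hξ))
  have hvan := Br.vanishU hψd (fun b hb0 hb => Br.core_univ hψd hψi b hb0 hb) hs1 hs2 hR0 hψR hk
    hkR hks hDo hDb (fun ξ hξ => hUD (hψm ξ hξ)) hcircD hW0 hFd hFi hβ hdiv'
  have hUvan : ∀ w ∈ U, Integrable (fun ζ => k ζ / (ζ - w)) ∧ ∫ ζ, k ζ / (ζ - w) = 0 := by
    intro w hw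
    refine ⟨int_off hk hki hkΩ (hUcl w hw), ?_⟩
    have h1 := hvan (φ w) (hφb.mapsTo hw)
    rwa [show ψ (φ w) = w from Br.invFunOn_left hφb.injOn hw] at h1
  -- two points of `U`
  obtain ⟨a, haU⟩ := hUc.nonempty
  obtain ⟨b, hbU, hab⟩ : ∃ b ∈ U, b ≠ a := by
    obtain ⟨ε, hε, hball⟩ := Metric.isOpen_iff.mp hUo a haU
    refine ⟨a + ((ε / 2 : ℝ) : ℂ), hball ?_, ?_⟩
    · rw [mem_ball, dist_eq_norm, add_sub_cancel_left, Complex.norm_real,
        Real.norm_of_nonneg (by positivity)]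
      linarith
    · intro h
      have h3 : ((ε / 2 : ℝ) : ℂ) = 0 := by simpa using h
      have : ε / 2 = 0 := by exact_mod_cast h3
      linarith
  have hr0 : 0 < ‖b - a‖ / 2 := by
    have : 0 < ‖b - a‖ := norm_pos_iff.2 (sub_ne_zero.2 hab)
    positivity
  have hcirc : ∀ z', z' ∉ Ω → ∀ r : ℝ, 0 < r → r < ‖b - a‖ / 2 →
      ∃ w ∈ W0 ∪ U, ‖w - z'‖ = r := by
    intro z' hz' r hr hr2
    by_cases hzD : z' ∈ D
    · have hzU : z' ∈ closure U := by
        by_contra hn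
        apply hz'
        rw [hΩ, crescent, mem_interior]
        exact ⟨D ∩ (closure U)ᶜ, fun x hx => ⟨hx.1, fun h => hx.2 (subset_closure h)⟩,
          hDo.inter isClosed_closure.isOpen_compl, ⟨hzD, hn⟩⟩
      have hfar : r < ‖a - z'‖ ∨ r < ‖b - z'‖ := by
        by_contra hboth
        push Not at hboth
        have : ‖b - a‖ ≤ ‖b - z'‖ + ‖a - z'‖ := by
          have e : b - a = (b - z') - (a - z') := by ring
          rw [e]; exact norm_sub_le _ _
        linarith [hboth.1, hboth.2]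
      rcases hfar with h | h
      · obtain ⟨w, hw, hwr⟩ := circle_meets hUc hzU hr haU h
        exact ⟨w, Or.inr hw, hwr⟩
      · obtain ⟨w, hw, hwr⟩ := circle_meets hUc hzU hr hbU h
        exact ⟨w, Or.inr hw, hwr⟩
    · obtain ⟨w, hw, hwr⟩ := hcircD z' hzD r hr
      exact ⟨w, Or.inl hw, hwr⟩
  exact hkf (Br.pz (p := p) (q := q) hp hs1 hs2 hsq hR1 hr0 hΩo (hΩD.trans hR) hk hkΩ hkq hki hf
    hfp (fun w hw => hw.elim (hW0 w) (hUvan w)) hcirc)

/-- Sanity check (not used below): `harmonicMeasure` is a probability measure. -/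
theorem harmonicMeasure_univ {U : Set ℂ} {φ : ℂ → ℂ} (hUo : IsOpen U)
    (hUb : Bornology.IsBounded U) (hφ : IsConformalOntoDisc φ U) :
    harmonicMeasure U φ univ = 1 := by
  obtain ⟨hφd, hφb⟩ := hφ
  have him : φ '' U = ball 0 1 := hφb.image_eq
  set ψ : ℂ → ℂ := Function.invFunOn φ U with hψ
  have hψm : ∀ w ∈ ball (0 : ℂ) 1, ψ w ∈ U := fun w hw => hφb.surjOn.mapsTo_invFunOn hw
  have hψd : DifferentiableOn ℂ ψ (ball 0 1) := fun w hw =>
    (Br.differentiableAt_inv hUo hφd hφb.injOn (by rw [him]; exact hw)).differentiableWithinAt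
  have hψi : InjOn ψ (ball 0 1) := by
    intro a ha b hb hab
    rw [← show φ (ψ a) = a from Br.invFunOn_right (by rw [him]; exact ha),
      ← show φ (ψ b) = b from Br.invFunOn_right (by rw [him]; exact hb), hab]
  obtain ⟨R, hR⟩ := hUb.subset_ball 0
  have hψR : ∀ ξ ∈ ball (0 : ℂ) 1, ‖ψ ξ‖ < R := fun ξ hξ => by simpa using hR (hψm ξ hξ)
  have hβ : ∀ᵐ θ : ℝ ∂(volume.restrict (Ioo (-Real.pi) Real.pi)),
      Tendsto (fun r : ℝ => ψ ((r : ℂ) * exp (θ * I))) (𝓝[<] (1 : ℝ))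
        (𝓝 (boundaryValue U φ θ)) := by
    filter_upwards [Br.rad_lim hψd hψi hψR] with θ hθ
    exact tendsto_nhds_limUnder hθ
  have hseq : Tendsto (fun n : ℕ => 1 - 1 / ((n : ℝ) + 1)) atTop (𝓝[<] (1 : ℝ)) := by
    refine tendsto_nhdsWithin_iff.2 ⟨?_, Eventually.of_forall fun n => ?_⟩
    · have := (tendsto_one_div_add_atTop_nhds_zero_nat (𝕜 := ℝ)).const_sub 1
      simpa using this
    · have : 0 < 1 / ((n : ℝ) + 1) := by positivity
      show 1 - 1 / ((n : ℝ) + 1) < 1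
      linarith
  have hmeas : AEMeasurable (boundaryValue U φ) (volume.restrict (Ioo (-Real.pi) Real.pi)) := by
    refine aemeasurable_of_tendsto_metrizable_ae atTop
      (f := fun (n : ℕ) (θ : ℝ) => ψ (((1 - 1 / ((n : ℝ) + 1) : ℝ) : ℂ) * exp (θ * I)))
      (fun n => ?_) ?_
    · have h1 : 0 ≤ 1 - 1 / ((n : ℝ) + 1) := by
        rw [sub_nonneg, div_le_one (by positivity)]
        linarith [Nat.cast_nonneg (α := ℝ) n]
      have h2 : 1 - 1 / ((n : ℝ) + 1) < 1 := by
        have : 0 < 1 / ((n : ℝ) + 1) := by positivity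
        linarith
      refine (hψd.continuousOn.comp_continuous (by fun_prop) fun θ => ?_).measurable.aemeasurable
      rw [mem_ball_zero_iff, norm_mul, Complex.norm_exp_ofReal_mul_I, mul_one, Complex.norm_real,
        Real.norm_of_nonneg h1]
      exact h2
    · filter_upwards [hβ] with θ hθ
      exact hθ.comp hseq
  rw [harmonicMeasure, Measure.smul_apply, Measure.map_apply_of_aemeasurable hmeas MeasurableSet.univ,
    preimage_univ, Measure.restrict_apply_univ, Real.volume_Ioo, smul_eq_mul]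
  rw [show Real.pi - -Real.pi = 2 * Real.pi by ring]
  exact ENNReal.inv_mul_cancel (by rw [Ne, ENNReal.ofReal_eq_zero, not_le]; positivity)
    ENNReal.ofReal_ne_top

/-- for every thin pair and every finite exponent, the polynomials are dense -/
theorem Hp_eq_Lpa {D U : Set ℂ} (hD : IsJordanDomain D) (hU : IsJordanDomain U) (hUD : U ⊆ D)
    (hthin : Thin D U) (p : ℝ≥0∞) [Fact (1 ≤ p)] (hp : p ≠ ∞) :
    Hp (crescent D U) p = Lpa (crescent D U) p := by
  have hp1 : (1 : ℝ≥0∞) ≤ p := Fact.out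
  have hO : IsOpen (crescent D U) := isOpen_interior
  have hclosed : IsClosed (Lpa (crescent D U) p) := by
    have h1 := Hg.isClosed_Lpa hO (w := fun _ => 1) aemeasurable_const (fun _ _ => by simp)
      (fun K _ _ => ⟨1, one_pos, fun _ _ => le_rfl⟩) p hp
    have h2 : (volume.restrict (crescent D U)).withDensity (fun _ => (1 : ℝ≥0∞)) =
        volume.restrict (crescent D U) := withDensity_one
    rw [h2] at h1
    exact h1
  have hfin : IsFiniteMeasure (volume.restrict (crescent D U)) := by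
    constructor
    rw [Measure.restrict_apply_univ]
    obtain ⟨R, hR⟩ := hD.2.2.1.subset_ball 0
    refine (measure_mono (fun z hz => hR (?_ : z ∈ D))).trans_lt
      (measure_ball_lt_top (x := (0 : ℂ)) (r := R))
    exact (interior_subset hz).1
  apply Subset.antisymm
  · apply closure_minimal _ hclosed
    rintro F ⟨P, hP⟩
    exact ⟨_, (Polynomial.differentiable P).differentiableOn, hP⟩
  · rintro F ⟨f, hf, hFf⟩
    have hfp : MemLp f p (volume.restrict (crescent D U)) := (memLp_congr_ae hFf).1 (Lp.memLp F)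
    rw [Hp, EMetric.mem_closure_iff]
    intro ε hε
    obtain ⟨P, hP⟩ := density hD hU hUD hthin hp1 hp hf hfp hε.ne'
    have hPmem : MemLp (fun z : ℂ => P.eval z) p (volume.restrict (crescent D U)) := by
      obtain ⟨R, hR⟩ := hD.2.2.1.subset_ball 0
      obtain ⟨B, hB⟩ := (isCompact_closedBall (0 : ℂ) R).exists_bound_of_continuousOn
        (Polynomial.continuous P).continuousOn
      refine MemLp.of_bound (Polynomial.continuous P).aestronglyMeasurable B ?_
      filter_upwards [ae_restrict_mem hO.measurableSet] with z hz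
      exact hB z (ball_subset_closedBall (hR (interior_subset hz).1))
    refine ⟨hPmem.toLp _, ⟨P, hPmem.coeFn_toLp⟩, ?_⟩
    rw [Lp.edist_def]
    have e1 : eLpNorm (F - hPmem.toLp _ : ℂ → ℂ) p (volume.restrict (crescent D U))
        = eLpNorm (fun z => f z - P.eval z) p (volume.restrict (crescent D U)) := by
      apply eLpNorm_congr_ae
      filter_upwards [hFf, hPmem.coeFn_toLp] with z hz1 hz2
      simp only [Pi.sub_apply]
      rw [hz1, hz2]
    rw [e1]
    exact hP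

/-- **The main theorem**: `(C_p)` holds for every finite `p ≥ 1`, and `p* = +∞`. -/
theorem result : (∀ (p : ℝ≥0∞) (hp : 1 ≤ p), p ≠ ∞ → Cp p hp) ∧ pStar = ∞ := by
  have h1 : ∀ (p : ℝ≥0∞) (hp : 1 ≤ p), p ≠ ∞ → Cp p hp := by
    intro p hp hpt
    have : Fact (1 ≤ p) := ⟨hp⟩
    intro D U hD hU hUD hthin
    exact Hp_eq_Lpa hD hU hUD hthin p hpt
  refine ⟨h1, ?_⟩
  rw [pStar, ← top_le_iff]
  exact le_sSup ⟨le_top, fun p hp hlt => h1 p hp hlt.ne⟩

end Pool.Agent.Results.MP_56bcbf_an.ThinPairsAllExponents
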